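import Pool.Agent.Helper68.FFinal

open Filter Topology Set

namespace Pool.Agent.Results.MP_bc0aea_an.GlobalLiftingFails

/-- A complex Fréchet space: the uniform structure is the one of the additive topological group,
the topology is given by a countable family of seminorms, it is Hausdorff and complete. -/
structure IsFrechetSpace (E : Type) [AddCommGroup E] [Module ℂ E] [UniformSpace E] : Prop where
  uniformAddGroup : IsUniformAddGroup E
  seminorms : ∃ p : ℕ → Seminorm ℂ E, WithSeminorms p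
  hausdorff : T2Space E
  complete : CompleteSpace E

/-- The open polydisk with centre `a` and polyradius `r`. -/
def Polydisk {n : ℕ} (a : Fin n → ℂ) (r : Fin n → ℝ) : Set (Fin n → ℂ) :=
  {z | ∀ j, ‖z j - a j‖ < r j}

section

variable {n : ℕ} {E F : Type} [AddCommGroup E] [Module ℂ E] [UniformSpace E]
  [AddCommGroup F] [Module ℂ F] [UniformSpace F]

/-- `u : D → L(E,F)` is analytic: pointwise holomorphic and locally equicontinuous. -/
structure IsAnalyticFamily (D : Set (Fin n → ℂ)) (u : (Fin n → ℂ) → E →L[ℂ] F) : Prop where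
  holomorphic : ∀ x : E, DifferentiableOn ℂ (fun z => u z x) D
  locallyEquicontinuous : ∀ z ∈ D, ∃ V ∈ 𝓝 z, Equicontinuous (fun (v : V) (x : E) => u v x)

/-- The induced morphism of sheaves is onto at the level of sheaves over `D`: every holomorphic
`F`-valued function on a neighbourhood of a point can be lifted on a smaller neighbourhood. -/
def OntoAsSheafMorphism (D : Set (Fin n → ℂ)) (u : (Fin n → ℂ) → E →L[ℂ] F) : Prop :=
  ∀ z₀ ∈ D, ∀ V : Set (Fin n → ℂ), IsOpen V → z₀ ∈ V → V ⊆ D →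
    ∀ g : (Fin n → ℂ) → F, DifferentiableOn ℂ g V →
      ∃ W : Set (Fin n → ℂ), IsOpen W ∧ z₀ ∈ W ∧ W ⊆ V ∧
        ∃ f : (Fin n → ℂ) → E, DifferentiableOn ℂ f W ∧ ∀ z ∈ W, u z (f z) = g z

/-- The map on global sections over `D` is onto. -/
def OntoOnGlobalSections (D : Set (Fin n → ℂ)) (u : (Fin n → ℂ) → E →L[ℂ] F) : Prop :=
  ∀ g : (Fin n → ℂ) → F, DifferentiableOn ℂ g D →
    ∃ f : (Fin n → ℂ) → E, DifferentiableOn ℂ f D ∧ ∀ z ∈ D, u z (f z) = g z

end

open Pool.Agent.Helper68.FrechetLift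

/-- For every polydisk (of every dimension `n ≥ 1`) there is an analytic family of continuous
operators between Fréchet spaces which is onto at the level of sheaves but not onto on global
sections. -/
theorem result (n : ℕ) (hn : 1 ≤ n) (a : Fin n → ℂ) (r : Fin n → ℝ) (hr : ∀ j, 0 < r j) :
    ∃ (E F : Type) (_ : AddCommGroup E) (_ : Module ℂ E) (_ : UniformSpace E)
      (_ : AddCommGroup F) (_ : Module ℂ F) (_ : UniformSpace F),
      IsFrechetSpace E ∧ IsFrechetSpace F ∧
      ∃ u : (Fin n → ℂ) → E →L[ℂ] F,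
        IsAnalyticFamily (Polydisk a r) u ∧
        OntoAsSheafMorphism (Polydisk a r) u ∧
        ¬ OntoOnGlobalSections (Polydisk a r) u := by
  have huV : IsUniformAddGroup (HS VV) := (HSub VV).toAddSubgroup.isUniformAddGroup
  have huO : IsUniformAddGroup (HS OO) := (HSub OO).toAddSubgroup.isUniformAddGroup
  have hcV : CompleteSpace (HS VV) := completeSpace_HS isOpen_VV
  have hcO : CompleteSpace (HS OO) := completeSpace_HS isOpen_OO
  let i₀ : Fin n := ⟨0, hn⟩
  have hr₀ : (0 : ℝ) < r i₀ := hr i₀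
  have hr₀' : ((r i₀ : ℝ) : ℂ) ≠ 0 := by exact_mod_cast hr₀.ne'
  -- the scalar parameter `2 (z₀ - a₀) / r₀`
  let ℓ : (Fin n → ℂ) →L[ℂ] ℂ := (2 / (r i₀ : ℂ)) • (ContinuousLinearMap.proj i₀)
  let b : ℂ := - (2 / (r i₀ : ℂ)) * a i₀
  have hℓ : ∀ z : Fin n → ℂ, ℓ z + b = (2 / (r i₀ : ℂ)) * (z i₀ - a i₀) := by
    intro z
    change (2 / (r i₀ : ℂ)) * z i₀ + (- (2 / (r i₀ : ℂ)) * a i₀) = _
    ring
  have hℓn : ∀ z ∈ Polydisk a r, ‖ℓ z + b‖ < 2 := by
    intro z hz
    rw [hℓ, norm_mul, norm_div, Complex.norm_two, Complex.norm_real, Real.norm_of_nonneg hr₀.le]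
    have := hz i₀
    calc 2 / r i₀ * ‖z i₀ - a i₀‖ < 2 / r i₀ * r i₀ := by gcongr
      _ = 2 := by field_simp
  refine ⟨HS VV × HS OO, HS OO, inferInstance, inferInstance, inferInstance,
    inferInstance, inferInstance, inferInstance, ?_, ?_, fun z => uu (ℓ z + b), ?_, ?_, ?_⟩
  · exact ⟨inferInstance, ⟨snP, withSeminorms_snP⟩, inferInstance, inferInstance⟩
  · exact ⟨inferInstance, ⟨sn OO, withSeminorms_sn OO⟩, inferInstance, hcO⟩
  · constructor
    · intro x z _
      refine ⟨ℓ.smulRight x.2, ?_⟩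
      rw [hasFDerivWithinAt_iff_isLittleOTVS]
      have : (fun z' : Fin n → ℂ => uu (ℓ z' + b) x - uu (ℓ z + b) x - (ℓ.smulRight x.2) (z' - z))
          = fun _ => (0 : HS OO) := by
        funext z'
        rw [uu_apply, uu_apply, ContinuousLinearMap.smulRight_apply, map_sub, sub_smul, add_smul,
          add_smul]
        abel
      rw [this]
      exact Asymptotics.IsLittleOTVS.zero _ _
    · intro z hz
      refine ⟨{v | ‖ℓ v + b‖ < 2}, ?_, ?_⟩
      · have hcont : Continuous fun v => ‖ℓ v + b‖ := (ℓ.continuous.add continuous_const).norm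
        exact (isOpen_lt hcont continuous_const).mem_nhds (hℓn z hz)
      · exact equi_aux (DD.comp (ContinuousLinearMap.fst ℂ (HS VV) (HS OO)) -
          CC.comp (ContinuousLinearMap.snd ℂ (HS VV) (HS OO)))
          (ContinuousLinearMap.snd ℂ (HS VV) (HS OO)) 2
          (fun v : {v : Fin n → ℂ | ‖ℓ v + b‖ < 2} => ℓ v + b) (fun v => le_of_lt v.2)
  · intro z₀ hz₀ V hV hz₀V hVD g hg
    -- choose the parity class
    obtain ⟨c, hc⟩ : ∃ c, ℓ z₀ + b ∈ Wc c := by
      rcases lt_or_ge (ℓ z₀ + b).re (1 / 4) with h | h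
      · refine ⟨0, hℓn z₀ hz₀, ?_⟩
        rw [pow_zero, one_mul]; exact h
      · refine ⟨1, hℓn z₀ hz₀, ?_⟩
        rw [pow_one]; linarith
    have hcont : Continuous fun v => ℓ v + b := ℓ.continuous.add continuous_const
    refine ⟨V ∩ (fun v => ℓ v + b) ⁻¹' Wc c, hV.inter ((isOpen_Wc c).preimage hcont),
      ⟨hz₀V, hc⟩, inter_subset_left, sol c ℓ b g, ?_, ?_⟩
    · rintro z ⟨hzV, hzc⟩
      have hgz : DifferentiableAt ℂ g z := by
        obtain ⟨g', hg'⟩ := hg z hzV
        refine ⟨g', ?_⟩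
        rw [hasFDerivWithinAt_iff_isLittleOTVS, hV.nhdsWithin_eq hzV] at hg'
        rw [hasFDerivAt_iff_isLittleOTVS]
        exact hg'
      obtain ⟨s', hs'⟩ := sol_diff ℓ b hzc hgz
      refine ⟨s', ?_⟩
      rw [hasFDerivWithinAt_iff_isLittleOTVS]
      rw [hasFDerivAt_iff_isLittleOTVS] at hs'
      exact hs'.mono nhdsWithin_le_nhds
    · rintro z ⟨_, hzc⟩
      exact sol_spec ℓ b g hzc
  · intro hglob
    have hconst : DifferentiableOn ℂ (fun _ : Fin n → ℂ => g0) (Polydisk a r) := by
      intro z _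
      refine ⟨0, ?_⟩
      rw [hasFDerivWithinAt_iff_isLittleOTVS]
      have : (fun z' : Fin n → ℂ => g0 - g0 - (0 : (Fin n → ℂ) →L[ℂ] HS OO) (z' - z))
          = fun _ => (0 : HS OO) := by
        funext z'; simp
      rw [this]
      exact Asymptotics.IsLittleOTVS.zero _ _
    obtain ⟨f, hf, hfu⟩ := hglob _ hconst
    -- restrict to a complex line
    let τ : ℂ → (Fin n → ℂ) := fun ζ => Function.update a i₀ (a i₀ + (r i₀ : ℂ) / 2 * ζ)
    let τ' : ℂ →L[ℂ] (Fin n → ℂ) :=
      (ContinuousLinearMap.id ℂ ℂ).smulRight (Pi.single i₀ ((r i₀ : ℂ) / 2))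
    have hτ' : ∀ ζ ζ', τ ζ' - τ ζ = τ' (ζ' - ζ) := by
      intro ζ ζ'
      funext k
      simp only [τ, τ', Pi.sub_apply, ContinuousLinearMap.smulRight_apply,
        ContinuousLinearMap.id_apply, Pi.smul_apply, smul_eq_mul]
      by_cases hk : k = i₀
      · subst hk
        simp only [Function.update_self, Pi.single_eq_same]
        ring
      · simp only [Function.update_of_ne hk, Pi.single_eq_of_ne hk]
        ring
    have hτm : ∀ ζ : ℂ, ‖ζ‖ < 2 → τ ζ ∈ Polydisk a r := by
      intro ζ hζ k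
      by_cases hk : k = i₀
      · subst hk
        simp only [τ, Function.update_self, add_sub_cancel_left]
        rw [norm_mul, norm_div, Complex.norm_two, Complex.norm_real, Real.norm_of_nonneg hr₀.le]
        calc r i₀ / 2 * ‖ζ‖ < r i₀ / 2 * 2 := by gcongr
          _ = r i₀ := by ring
      · simp only [τ, Function.update_of_ne hk, sub_self, norm_zero]
        exact hr k
    have hτℓ : ∀ ζ, ℓ (τ ζ) + b = ζ := by
      intro ζ
      rw [hℓ]
      simp only [τ, Function.update_self]
      field_simp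
      ring
    have hτc : Continuous τ := by
      have : τ = fun ζ => τ 0 + τ' ζ := by
        funext ζ
        have := hτ' 0 ζ
        rw [sub_zero] at this
        rw [← this]; abel
      rw [this]
      exact continuous_const.add τ'.continuous
    have hopen : IsOpen (Polydisk a r) := by
      have : Polydisk a r = ⋂ j, {z : Fin n → ℂ | ‖z j - a j‖ < r j} := by
        ext z; simp [Polydisk]
      rw [this]
      exact isOpen_iInter_of_finite fun j =>
        isOpen_lt ((continuous_apply j).sub continuous_const).norm continuous_const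
    refine no_global (f := fun ζ => f (τ ζ)) ?_ ?_
    · intro ζ hζ
      obtain ⟨f', hf'⟩ := hf (τ ζ) (hτm ζ hζ)
      refine ⟨f'.comp τ', ?_⟩
      rw [hasFDerivWithinAt_iff_isLittleOTVS, hopen.nhdsWithin_eq (hτm ζ hζ)] at hf'
      rw [hasFDerivAt_iff_isLittleOTVS]
      have h1 := hf'.comp_tendsto (hτc.tendsto ζ)
      have h2 : (fun ζ' => τ ζ' - τ ζ) =O[ℂ; 𝓝 ζ] fun ζ' => ζ' - ζ := by
        have h3 := τ'.isBigOTVS_fun_comp (f := fun ζ' : ℂ => ζ' - ζ) (l := 𝓝 ζ)
        refine h3.congr_left fun ζ' => ?_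
        exact (hτ' ζ ζ').symm
      refine (h1.trans_isBigOTVS h2).congr_left fun ζ' => ?_
      simp only [Function.comp_apply, ContinuousLinearMap.comp_apply]
      rw [hτ']
    · intro z hz
      have := hfu (τ z) (hτm z hz)
      simp only [hτℓ] at this
      exact this

end Pool.Agent.Results.MP_bc0aea_an.GlobalLiftingFails
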